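import Pool.Agent.Helper85.QT.St1
import Pool.Agent.Helper39.QM.M_Slit
import Pool.Agent.Helper39.QM.M_Grow
import Pool.Agent.Helper39.QM.Basic
import Pool.Agent.Helper71.TU.X5aux

/-!
# Project QT, module KQ: Koebe's quarter theorem and growth theorem
-/

set_option autoImplicit false

open MeasureTheory Matrix Set Topology
open scoped ENNReal ComplexConjugate

namespace Pool.Agent.Helper78.QT

open Pool.Agent.Helper85.QT Pool.Agent.Helper86.QA
open Pool.Agent.Helper64.C3 (ClassS coeff)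

/-- normalisation of a univalent function on a ball -/
private noncomputable def nrm (g : ℂ → ℂ) (w : ℂ) (r : ℝ) (z : ℂ) : ℂ :=
  (g (w + (r : ℂ) * z) - g w) / ((r : ℂ) * deriv g w)

private theorem mem_r (w : ℂ) (r : ℝ) (hr : 0 < r) (z : ℂ) (hz : z ∈ Metric.ball (0 : ℂ) 1) :
    w + (r : ℂ) * z ∈ Metric.ball w r := by
  rw [mem_ball_zero_iff] at hz
  rw [Metric.mem_ball, dist_eq_norm, add_sub_cancel_left, norm_mul, Complex.norm_real,
    Real.norm_eq_abs, abs_of_pos hr]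
  nlinarith

private theorem nrm_class (g : ℂ → ℂ) (w : ℂ) (r : ℝ) (hr : 0 < r)
    (hd : DifferentiableOn ℂ g (Metric.ball w r)) (hi : InjOn g (Metric.ball w r)) :
    deriv g w ≠ 0 ∧ ClassS (nrm g w r) := by
  have hg0 : deriv g w ≠ 0 := Pool.TU.X5.deriv_ne_zero_of_injOn Metric.isOpen_ball hd hi
    (Metric.mem_ball_self hr)
  have hrc : (r : ℂ) ≠ 0 := by exact_mod_cast hr.ne'
  have hder : ∀ z ∈ Metric.ball (0 : ℂ) 1, HasDerivAt (nrm g w r)
      (deriv g (w + (r : ℂ) * z) * ((r : ℂ) * 1) / ((r : ℂ) * deriv g w)) z := by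
    intro z hz
    have h1 : HasDerivAt g (deriv g (w + (r : ℂ) * z)) (w + (r : ℂ) * z) :=
      ((hd _ (mem_r w r hr z hz)).differentiableAt
        (Metric.isOpen_ball.mem_nhds (mem_r w r hr z hz))).hasDerivAt
    have h2 : HasDerivAt (fun z : ℂ => w + (r : ℂ) * z) ((r : ℂ) * 1) z :=
      ((hasDerivAt_id z).const_mul (r : ℂ)).const_add w
    exact ((h1.comp z h2).sub_const (g w)).div_const _
  refine ⟨hg0, ?_, ?_, ?_, ?_⟩
  · intro z hz
    exact (hder z hz).differentiableAt.differentiableWithinAt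
  · intro z hz z' hz' h
    unfold nrm at h
    have hne : (r : ℂ) * deriv g w ≠ 0 := mul_ne_zero hrc hg0
    rw [div_left_inj' hne, sub_left_inj] at h
    have h2 := hi (mem_r w r hr z hz) (mem_r w r hr z' hz') h
    have h3 : (r : ℂ) * z = (r : ℂ) * z' := by linear_combination h2
    exact mul_left_cancel₀ hrc h3
  · unfold nrm
    rw [mul_zero, add_zero, sub_self, zero_div]
  · rw [(hder 0 (Metric.mem_ball_self one_pos)).deriv, mul_zero, add_zero]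
    field_simp

private theorem quarter_S (f : ℂ → ℂ) (hf : ClassS f) (c : ℂ)
    (hc : ∀ z ∈ Metric.ball (0 : ℂ) 1, f z ≠ c) : 1 / 4 ≤ ‖c‖ := by
  have hc0 : c ≠ 0 := by
    intro h
    refine hc 0 (Metric.mem_ball_self one_pos) ?_
    rw [hf.2.2.1, h]
  have h1 := Pool.Agent.Helper39.QM.omit_value f hf c hc0 hc
  have h2 := Pool.Agent.Helper39.QM.bieb2 hf
  have h3 : ‖c⁻¹‖ ≤ 4 := by
    have e : c⁻¹ = (c⁻¹ + coeff 2 f) - coeff 2 f := by ring
    rw [e]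
    refine (norm_sub_le _ _).trans ?_
    linarith
  have hn : 0 < ‖c‖ := norm_pos_iff.mpr hc0
  rw [norm_inv, inv_le_comm₀ hn (by norm_num)] at h3
  linarith

private theorem quarter_r (g : ℂ → ℂ) (w : ℂ) (r : ℝ) (hr : 0 < r)
    (hd : DifferentiableOn ℂ g (Metric.ball w r)) (hi : InjOn g (Metric.ball w r)) (k : ℂ)
    (hk : k ∉ g '' Metric.ball w r) : r * ‖deriv g w‖ ≤ 4 * ‖k - g w‖ := by
  obtain ⟨hg0, hcl⟩ := nrm_class g w r hr hd hi
  have hrc : (r : ℂ) ≠ 0 := by exact_mod_cast hr.ne'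
  have hne : (r : ℂ) * deriv g w ≠ 0 := mul_ne_zero hrc hg0
  have h := quarter_S (nrm g w r) hcl ((k - g w) / ((r : ℂ) * deriv g w)) (by
    intro z hz h
    unfold nrm at h
    rw [div_left_inj' hne, sub_left_inj] at h
    exact hk ⟨_, mem_r w r hr z hz, h⟩)
  have hp : 0 < ‖(r : ℂ) * deriv g w‖ := norm_pos_iff.mpr hne
  rw [norm_div, div_le_div_iff₀ (by norm_num) hp, norm_mul, Complex.norm_real, Real.norm_eq_abs,
    abs_of_pos hr] at h
  linarith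

private theorem growth_r (g : ℂ → ℂ) (w : ℂ) (r : ℝ) (hr : 0 < r)
    (hd : DifferentiableOn ℂ g (Metric.ball w r)) (hi : InjOn g (Metric.ball w r)) (z : ℂ)
    (hz : z ∈ Metric.ball w r) :
    ‖deriv g w‖ * ‖z - w‖ / (1 + ‖z - w‖ / r) ^ 2 ≤ ‖g z - g w‖ ∧
      ‖g z - g w‖ ≤ ‖deriv g w‖ * ‖z - w‖ / (1 - ‖z - w‖ / r) ^ 2 := by
  obtain ⟨hg0, hcl⟩ := nrm_class g w r hr hd hi
  have hrc : (r : ℂ) ≠ 0 := by exact_mod_cast hr.ne'
  have hne : (r : ℂ) * deriv g w ≠ 0 := mul_ne_zero hrc hg0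
  rw [Metric.mem_ball, dist_eq_norm] at hz
  set ζ : ℂ := (z - w) / (r : ℂ) with hζ
  have hζn : ‖ζ‖ = ‖z - w‖ / r := by
    rw [hζ, norm_div, Complex.norm_real, Real.norm_eq_abs, abs_of_pos hr]
  have hζ1 : ‖ζ‖ < 1 := by
    rw [hζn, div_lt_one hr]
    exact hz
  have hmem : ζ ∈ Metric.ball (0 : ℂ) 1 := by
    rw [mem_ball_zero_iff]
    exact hζ1
  have hzw : w + (r : ℂ) * ζ = z := by
    rw [hζ, mul_div_cancel₀ _ hrc]
    ring
  have hval : nrm g w r ζ = (g z - g w) / ((r : ℂ) * deriv g w) := by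
    unfold nrm
    rw [hzw]
  have hnv : ‖nrm g w r ζ‖ * (r * ‖deriv g w‖) = ‖g z - g w‖ := by
    rw [hval, norm_div, norm_mul, Complex.norm_real, Real.norm_eq_abs, abs_of_pos hr]
    have : 0 < ‖deriv g w‖ := norm_pos_iff.mpr hg0
    field_simp
  have hD : 0 < ‖deriv g w‖ := norm_pos_iff.mpr hg0
  have hzr : ‖z - w‖ = r * ‖ζ‖ := by
    rw [hζn]
    field_simp
  rw [← hζn, hzr, ← hnv]
  constructor
  · rcases eq_or_ne ζ 0 with h0 | h0
    · rw [h0, norm_zero]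
      simp only [mul_zero, zero_div]
      positivity
    · have hs := Pool.Agent.Helper39.QM.slit (nrm g w r) hcl ζ h0 hζ1
      have hb := Pool.Agent.Helper39.QM.bieb2 hcl
      have hζp : 0 < ‖ζ‖ := norm_pos_iff.mpr h0
      have hfz : nrm g w r ζ ≠ 0 := by
        intro h
        rw [← hcl.2.2.1] at h
        exact h0 (hcl.2.1 hmem (Metric.mem_ball_self one_pos) h)
      have hfp : 0 < ‖nrm g w r ζ‖ := norm_pos_iff.mpr hfz
      have h3 : ‖(nrm g w r ζ)⁻¹‖ ≤ ‖ζ‖ + ‖ζ‖⁻¹ + 2 := by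
        have e : (nrm g w r ζ)⁻¹ = ((nrm g w r ζ)⁻¹ + coeff 2 (nrm g w r)) -
          coeff 2 (nrm g w r) := by ring
        rw [e]
        refine (norm_sub_le _ _).trans ?_
        linarith
      rw [norm_inv] at h3
      have h4 : ‖ζ‖ + ‖ζ‖⁻¹ + 2 = (1 + ‖ζ‖) ^ 2 / ‖ζ‖ := by
        field_simp
        ring
      rw [h4] at h3
      have h5 : ‖ζ‖ / (1 + ‖ζ‖) ^ 2 ≤ ‖nrm g w r ζ‖ := by
        rw [inv_le_comm₀ hfp (by positivity), inv_div] at h3
        exact h3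
      calc ‖deriv g w‖ * (r * ‖ζ‖) / (1 + ‖ζ‖) ^ 2
          = (‖ζ‖ / (1 + ‖ζ‖) ^ 2) * (r * ‖deriv g w‖) := by ring
        _ ≤ ‖nrm g w r ζ‖ * (r * ‖deriv g w‖) :=
            mul_le_mul_of_nonneg_right h5 (by positivity)
  · have hg := Pool.Agent.Helper39.QM.grow (nrm g w r) hcl ζ hζ1
    have h1 : 0 < (1 - ‖ζ‖) ^ 2 := by
      have : 0 < 1 - ‖ζ‖ := by linarith
      positivity
    rw [le_div_iff₀ h1]
    calc ‖nrm g w r ζ‖ * (r * ‖deriv g w‖) * (1 - ‖ζ‖) ^ 2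
        = (‖nrm g w r ζ‖ * (1 - ‖ζ‖) ^ 2) * (r * ‖deriv g w‖) := by ring
      _ ≤ ‖ζ‖ * (r * ‖deriv g w‖) := mul_le_mul_of_nonneg_right hg (by positivity)
      _ = _ := by ring

/-- holomorphic inverse -/
private theorem inv_holo (F : ℂ → ℂ) (A : Set ℂ) (hA : IsOpen A) (hd : DifferentiableOn ℂ F A)
    (hi : InjOn F A) : ∃ G : ℂ → ℂ, (∀ z ∈ A, G (F z) = z) ∧
      ∀ z ∈ A, HasDerivAt G (deriv F z)⁻¹ (F z) := by
  have hinv : ∀ z ∈ A, Function.invFunOn F A (F z) = z := by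
    intro z hz
    have h1 : ∃ a ∈ A, F a = F z := ⟨z, hz, rfl⟩
    exact hi (Function.invFunOn_mem h1) hz (Function.invFunOn_eq h1)
  refine ⟨Function.invFunOn F A, hinv, ?_⟩
  intro z hz
  have hne : deriv F z ≠ 0 := Pool.TU.X5.deriv_ne_zero_of_injOn hA hd hi hz
  have hopen : ∀ V : Set ℂ, IsOpen V → IsOpen (F '' (V ∩ A)) := fun V hV =>
    Pool.Agent.Helper80.Bieb.isOpen_image_of_injOn (hV.inter hA) (hd.mono inter_subset_right)
      (hi.mono inter_subset_right)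
  have hcont : ContinuousAt (Function.invFunOn F A) (F z) := by
    rw [continuousAt_def, hinv z hz]
    intro U hU
    obtain ⟨V, hVU, hVo, hzV⟩ := mem_nhds_iff.mp hU
    refine Filter.mem_of_superset ((hopen V hVo).mem_nhds ⟨z, ⟨hzV, hz⟩, rfl⟩) ?_
    rintro _ ⟨a, ⟨haV, haA⟩, rfl⟩
    rw [mem_preimage, hinv a haA]
    exact hVU haV
  refine HasDerivAt.of_local_left_inverse (f := F) hcont ?_ hne ?_
  · rw [hinv z hz]
    exact ((hd z hz).differentiableAt (hA.mem_nhds hz)).hasDerivAt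
  · have h1 : F '' (univ ∩ A) ∈ 𝓝 (F z) := (hopen univ isOpen_univ).mem_nhds ⟨z, ⟨trivial, hz⟩, rfl⟩
    filter_upwards [h1] with y hy
    obtain ⟨a, ⟨-, haA⟩, rfl⟩ := hy
    rw [hinv a haA]

private theorem hyp_bound (F : ℂ → ℂ) (A : Set ℂ) (hA : IsOpen A) (hd : DifferentiableOn ℂ F A)
    (hi : InjOn F A) (him : F '' A = HP) (ξ : ℂ) (hξ : ξ ∈ A) (k : ℂ) (hk : k ∉ A) :
    1 / (4 * ‖ξ - k‖ ^ 2) ≤ rX F ξ := by
  obtain ⟨G, hG1, hG2⟩ := inv_holo F A hA hd hi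
  have hFξ : F ξ ∈ HP := by rw [← him]; exact ⟨ξ, hξ, rfl⟩
  set y : ℝ := (F ξ).im with hy
  have hy0 : 0 < y := hFξ
  have hF' : deriv F ξ ≠ 0 := Pool.TU.X5.deriv_ne_zero_of_injOn hA hd hi hξ
  have hFp : 0 < ‖deriv F ξ‖ := norm_pos_iff.mpr hF'
  -- the Cayley map
  set Cy : ℂ → ℂ := fun ζ => F ξ + (2 * (y : ℂ) * Complex.I) * (ζ / (1 - ζ)) with hCy
  have h1ne : ∀ ζ ∈ Metric.ball (0 : ℂ) 1, (1 : ℂ) - ζ ≠ 0 := by
    intro ζ hζ h
    rw [mem_ball_zero_iff] at hζ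
    have : ζ = 1 := by linear_combination -h
    rw [this, norm_one] at hζ
    exact lt_irrefl _ hζ
  have hCyHP : ∀ ζ ∈ Metric.ball (0 : ℂ) 1, Cy ζ ∈ HP := by
    intro ζ hζ
    have hn := h1ne ζ hζ
    rw [mem_ball_zero_iff] at hζ
    have hsq : ζ.re ^ 2 + ζ.im ^ 2 < 1 := by
      have : ‖ζ‖ ^ 2 < 1 := by nlinarith [norm_nonneg ζ]
      rw [Complex.sq_norm, Complex.normSq_apply] at this
      nlinarith
    have hre : (ζ / (1 - ζ)).re = (ζ.re * (1 - ζ.re) - ζ.im ^ 2) /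
        ((1 - ζ.re) ^ 2 + ζ.im ^ 2) := by
      rw [Complex.div_re, Complex.normSq_apply]
      simp only [Complex.sub_re, Complex.sub_im, Complex.one_re, Complex.one_im]
      rw [← add_div]
      congr 1 <;> ring
    have hden : 0 < (1 - ζ.re) ^ 2 + ζ.im ^ 2 := by
      have : ζ.re < 1 := by nlinarith [sq_nonneg ζ.im]
      nlinarith [sq_nonneg ζ.im, sq_nonneg (1 - ζ.re)]
    have hgt : -(1 / 2) < (ζ / (1 - ζ)).re := by
      rw [hre, lt_div_iff₀ hden]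
      nlinarith
    have him2 : (Cy ζ).im = y + 2 * y * (ζ / (1 - ζ)).re := by
      rw [hCy]
      simp only [Complex.add_im, Complex.mul_im, Complex.mul_re, Complex.I_re, Complex.I_im,
        Complex.ofReal_re, Complex.ofReal_im, Complex.re_ofNat, Complex.im_ofNat]
      rw [hy]
      ring
    change 0 < (Cy ζ).im
    rw [him2]
    nlinarith
  have hCyd : ∀ ζ ∈ Metric.ball (0 : ℂ) 1, HasDerivAt Cy
      ((2 * (y : ℂ) * Complex.I) * ((1 * (1 - ζ) - ζ * (-1)) / (1 - ζ) ^ 2)) ζ := by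
    intro ζ hζ
    have h1 : HasDerivAt (fun ζ : ℂ => 1 - ζ) (-1) ζ := by
      simpa using (hasDerivAt_id ζ).const_sub 1
    exact (((hasDerivAt_id ζ).div h1 (h1ne ζ hζ)).const_mul _).const_add _
  have hpre : ∀ ζ ∈ Metric.ball (0 : ℂ) 1, ∃ a ∈ A, F a = Cy ζ := by
    intro ζ hζ
    have := hCyHP ζ hζ
    rw [← him] at this
    exact this
  set g : ℂ → ℂ := fun ζ => G (Cy ζ) with hg
  have hgA : ∀ ζ ∈ Metric.ball (0 : ℂ) 1, g ζ ∈ A ∧ F (g ζ) = Cy ζ := by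
    intro ζ hζ
    obtain ⟨a, ha, hFa⟩ := hpre ζ hζ
    have e : g ζ = a := by
      rw [hg]
      simp only
      rw [← hFa, hG1 a ha]
    rw [e]
    exact ⟨ha, hFa⟩
  have hgd : ∀ ζ ∈ Metric.ball (0 : ℂ) 1, HasDerivAt g ((deriv F (g ζ))⁻¹ *
      ((2 * (y : ℂ) * Complex.I) * ((1 * (1 - ζ) - ζ * (-1)) / (1 - ζ) ^ 2))) ζ := by
    intro ζ hζ
    obtain ⟨h1, h2⟩ := hgA ζ hζ
    have h3 := hG2 (g ζ) h1
    rw [h2] at h3
    exact h3.comp ζ (hCyd ζ hζ)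
  have hginj : InjOn g (Metric.ball 0 1) := by
    intro ζ hζ ζ' hζ' h
    have h1 : Cy ζ = Cy ζ' := by rw [← (hgA ζ hζ).2, ← (hgA ζ' hζ').2, h]
    rw [hCy] at h1
    simp only at h1
    have h2 : (2 * (y : ℂ) * Complex.I) * (ζ / (1 - ζ)) =
        (2 * (y : ℂ) * Complex.I) * (ζ' / (1 - ζ')) := by linear_combination h1
    have hyc : (2 * (y : ℂ) * Complex.I) ≠ 0 := by
      have : (y : ℂ) ≠ 0 := by exact_mod_cast hy0.ne'
      simp [this]
    have h3 := mul_left_cancel₀ hyc h2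
    rw [div_eq_div_iff (h1ne ζ hζ) (h1ne ζ' hζ')] at h3
    linear_combination h3
  have hCy0 : Cy 0 = F ξ := by
    rw [hCy]
    simp
  have hg0 : g 0 = ξ := by
    rw [hg]
    simp only
    rw [hCy0, hG1 ξ hξ]
  have hgd0 : deriv g 0 = (deriv F ξ)⁻¹ * (2 * (y : ℂ) * Complex.I) := by
    rw [(hgd 0 (Metric.mem_ball_self one_pos)).deriv, hg0]
    ring
  have hko : k ∉ g '' Metric.ball 0 1 := by
    rintro ⟨ζ, hζ, h⟩
    exact hk (h ▸ (hgA ζ hζ).1)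
  have hq := quarter_r g 0 1 one_pos
    (fun ζ hζ => (hgd ζ hζ).differentiableAt.differentiableWithinAt) hginj k hko
  rw [hgd0, hg0, norm_mul, norm_inv, one_mul] at hq
  have hn2 : ‖(2 * (y : ℂ) * Complex.I)‖ = 2 * y := by
    rw [norm_mul, norm_mul, Complex.norm_I, mul_one, Complex.norm_real, Real.norm_eq_abs,
      abs_of_pos hy0]
    norm_num
  rw [hn2, norm_sub_rev] at hq
  have hkne : ξ ≠ k := by
    intro h
    exact hk (h ▸ hξ)
  have hkp : 0 < ‖ξ - k‖ := norm_pos_iff.mpr (sub_ne_zero.mpr hkne)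
  have h5 : y ≤ 2 * ‖ξ - k‖ * ‖deriv F ξ‖ := by
    have : ‖deriv F ξ‖ * (‖deriv F ξ‖⁻¹ * (2 * y)) ≤ ‖deriv F ξ‖ * (4 * ‖ξ - k‖) :=
      mul_le_mul_of_nonneg_left hq hFp.le
    rw [← mul_assoc, mul_inv_cancel₀ hFp.ne', one_mul] at this
    nlinarith
  unfold rX
  rw [← hy, div_le_div_iff₀ (by positivity) (by positivity)]
  have h6 : y ^ 2 ≤ (2 * ‖ξ - k‖ * ‖deriv F ξ‖) ^ 2 := pow_le_pow_left₀ hy0.le h5 2
  nlinarith

theorem hKQ : Pool.Agent.Helper85.QT.StKQ := by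
  refine ⟨?_, ?_, ?_, ?_⟩
  · intro g hd hi k hk
    have := quarter_r g 0 1 one_pos hd hi k hk
    rwa [one_mul] at this
  · intro F A hA hd hi him ξ hξ k hk
    exact hyp_bound F A hA hd hi him ξ hξ k hk
  · intro g w r hr hd hi k hk
    by_contra hcon
    have := quarter_r g w r hr hd hi k hcon
    rw [Metric.mem_ball, dist_eq_norm] at hk
    linarith
  · intro g w r hr hd hi z hz
    exact growth_r g w r hr hd hi z hz

end Pool.Agent.Helper78.QT
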