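import Pool.Agent.Helper85.QT.St1

/-!
# Project QT, module CAN: Canary's bound for the volume of the core
-/

set_option autoImplicit false

open MeasureTheory Matrix Set Topology
open scoped ENNReal ComplexConjugate

namespace Pool.Agent.Helper78.QT

open Pool.Agent.Helper85.QT Pool.Agent.Helper86.QA
open Pool.Agent.Helper35.PM (hs)

private noncomputable def V1 (S a₀ : ℝ) : ℝ :=
  128 * (S + 2) ^ 2 * (4 * Real.pi * Real.log (4 * S + 6) * a₀)

private theorem V1_nonneg (S a₀ : ℝ) (hS : 0 ≤ S) (ha : 0 ≤ a₀) : 0 ≤ V1 S a₀ := by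
  unfold V1
  have : 0 ≤ Real.log (4 * S + 6) := Real.log_nonneg (by linarith)
  have hp := Real.pi_pos
  positivity

private theorem LS_comm (A B : Set ℂ) : LS B A = LS A B := by
  unfold LS
  rw [union_comm]

private theorem sb_comm (A B : Set ℂ) (x : Pt) : sb B A x = sb A B x := by
  unfold sb AdF
  rw [LS_comm]

/-- the part of the shell over `A` -/
private theorem half_shell (hSH6 : StSH6) {Γ : Type} [Group Γ] (ρ σ : Γ →* SL) (A B : Set ℂ)
    (F : ℂ → ℂ) (hKD : KD ρ A B) (hCF : CF ρ A F σ) (D : Set Pt) (DA : Set ℂ)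
    (hD : FDOn (au ρ) up D) (hDA : FDOn (ab ρ) A DA) (S a₀ : ℝ) (hS : 0 ≤ S)
    (h : ∫⁻ ξ in DA, ENNReal.ofReal (rX F ξ) ≤ ENNReal.ofReal a₀) :
    vol (D ∩ {x : Pt | x ∈ up ∧ sb A B x ≤ S ∧
        ∃ (c : ℂ) (r : ℝ), 0 < r ∧ ‖x.1 - c‖ ^ 2 + x.2 ^ 2 < r ^ 2 ∧ Metric.ball c r ⊆ A}) ≤
      ENNReal.ofReal (V1 S a₀) := by
  have h1 := hSH6 Γ ρ σ A B F hKD hCF D DA hD hDA S hS
  set v := vol (D ∩ {x : Pt | x ∈ up ∧ sb A B x ≤ S ∧
        ∃ (c : ℂ) (r : ℝ), 0 < r ∧ ‖x.1 - c‖ ^ 2 + x.2 ^ 2 < r ^ 2 ∧ Metric.ball c r ⊆ A}) with hv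
  have hc : 0 < 128 * (S + 2) ^ 2 := by positivity
  have hlog : 0 ≤ Real.log (4 * S + 6) := Real.log_nonneg (by linarith)
  have hp := Real.pi_pos
  have e : v = ENNReal.ofReal (128 * (S + 2) ^ 2) *
      (ENNReal.ofReal (1 / (128 * (S + 2) ^ 2)) * v) := by
    rw [← mul_assoc, ← ENNReal.ofReal_mul hc.le, mul_one_div_cancel hc.ne', ENNReal.ofReal_one,
      one_mul]
  rw [e]
  calc ENNReal.ofReal (128 * (S + 2) ^ 2) * (ENNReal.ofReal (1 / (128 * (S + 2) ^ 2)) * v)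
      ≤ ENNReal.ofReal (128 * (S + 2) ^ 2) * (ENNReal.ofReal (4 * Real.pi *
        Real.log (4 * S + 6)) * ∫⁻ ξ in DA, ENNReal.ofReal (rX F ξ)) := by gcongr
    _ ≤ ENNReal.ofReal (128 * (S + 2) ^ 2) * (ENNReal.ofReal (4 * Real.pi *
        Real.log (4 * S + 6)) * ENNReal.ofReal a₀) := by gcongr
    _ = ENNReal.ofReal (V1 S a₀) := by
        unfold V1
        rw [← ENNReal.ofReal_mul (by positivity), ← ENNReal.ofReal_mul hc.le]

private def Sh (A B : Set ℂ) (S : ℝ) : Set Pt := {x | x ∈ up ∧ 0 < sb A B x ∧ sb A B x ≤ S}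

private theorem shell (hACU : StACU) (hSB7 : StSB7) (hSH6 : StSH6) {Γ : Type} [Group Γ]
    (ρ σ τ : Γ →* SL) (A B : Set ℂ) (F F' : ℂ → ℂ) (hKD : KD ρ A B) (hCF : CF ρ A F σ)
    (hCF' : CF ρ B F' τ) (D : Set Pt) (DA DB : Set ℂ) (hD : FDOn (au ρ) up D)
    (hDA : FDOn (ab ρ) A DA) (hDB : FDOn (ab ρ) B DB) (S a₀ : ℝ) (hS : 0 ≤ S) (ha : 0 ≤ a₀)
    (h : ∫⁻ ξ in DA, ENNReal.ofReal (rX F ξ) ≤ ENNReal.ofReal a₀)
    (h' : ∫⁻ ξ in DB, ENNReal.ofReal (rX F' ξ) ≤ ENNReal.ofReal a₀) :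
    vol (D ∩ Sh A B S) ≤ ENNReal.ofReal (2 * V1 S a₀) := by
  have hKD' : KD ρ B A := (hACU Γ ρ A B hKD).2.2.2.2.2.2
  have h1 := half_shell hSH6 ρ σ A B F hKD hCF D DA hD hDA S a₀ hS h
  have h2 := half_shell hSH6 ρ τ B A F' hKD' hCF' D DB hD hDB S a₀ hS h'
  have hV := V1_nonneg S a₀ hS ha
  calc vol (D ∩ Sh A B S) ≤ vol ((D ∩ {x : Pt | x ∈ up ∧ sb A B x ≤ S ∧
        ∃ (c : ℂ) (r : ℝ), 0 < r ∧ ‖x.1 - c‖ ^ 2 + x.2 ^ 2 < r ^ 2 ∧ Metric.ball c r ⊆ A}) ∪
        (D ∩ {x : Pt | x ∈ up ∧ sb B A x ≤ S ∧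
        ∃ (c : ℂ) (r : ℝ), 0 < r ∧ ‖x.1 - c‖ ^ 2 + x.2 ^ 2 < r ^ 2 ∧
          Metric.ball c r ⊆ B})) := by
        refine measure_mono ?_
        rintro x ⟨hxD, hxu, hx0, hxS⟩
        obtain ⟨c, r, hr, hx, hc⟩ := hSB7 Γ ρ A B hKD x hxu hx0
        rcases hc with hc | hc
        · exact Or.inl ⟨hxD, hxu, hxS, c, r, hr, hx, hc⟩
        · exact Or.inr ⟨hxD, hxu, by rw [sb_comm]; exact hxS, c, r, hr, hx, hc⟩
    _ ≤ _ := measure_union_le _ _
    _ ≤ ENNReal.ofReal (V1 S a₀) + ENNReal.ofReal (V1 S a₀) := add_le_add h1 h2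
    _ = ENNReal.ofReal (2 * V1 S a₀) := by
        rw [← ENNReal.ofReal_add hV hV]
        congr 1
        ring

private theorem sh_meas (hSB4 : StSB4) {Γ : Type} [Group Γ] (ρ : Γ →* SL) (A B : Set ℂ)
    (hKD : KD ρ A B) (S : ℝ) : MeasurableSet (Sh A B S) := by
  have h1 := (hSB4 Γ ρ A B hKD).2.2.2 S
  have h0 := (hSB4 Γ ρ A B hKD).2.2.2 0
  have e : Sh A B S = {x : Pt | x ∈ up ∧ sb A B x ≤ S} \ {x : Pt | x ∈ up ∧ sb A B x ≤ 0} := by
    ext x
    unfold Sh
    constructor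
    · rintro ⟨hu, hx0, hxS⟩
      exact ⟨⟨hu, hxS⟩, fun h => absurd h.2 (not_le.mpr hx0)⟩
    · rintro ⟨⟨hu, hxS⟩, hn⟩
      refine ⟨hu, ?_, hxS⟩
      by_contra hc
      exact hn ⟨hu, not_lt.mp hc⟩
  rw [e]
  exact h1.diff h0

open Classical in
/-- the test function -/
private noncomputable def ph (A B : Set ℂ) (x : Pt) : ℝ :=
  if x ∈ up then max 0 (1 - max 0 (sb A B x)) else 0

private theorem ph_up (A B : Set ℂ) (x : Pt) (hx : x ∈ up) :
    ph A B x = max 0 (1 - max 0 (sb A B x)) := by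
  unfold ph
  rw [if_pos hx]

private theorem ph_not (A B : Set ℂ) (x : Pt) (hx : x ∉ up) : ph A B x = 0 := by
  unfold ph
  rw [if_neg hx]

private theorem ph_rng (A B : Set ℂ) (x : Pt) : 0 ≤ ph A B x ∧ ph A B x ≤ 1 := by
  by_cases hx : x ∈ up
  · rw [ph_up A B x hx]
    refine ⟨le_max_left _ _, max_le zero_le_one ?_⟩
    have := le_max_left 0 (sb A B x)
    linarith
  · rw [ph_not A B x hx]
    exact ⟨le_refl _, zero_le_one⟩

private theorem ph_meas (hSB4 : StSB4) {Γ : Type} [Group Γ] (ρ : Γ →* SL) (A B : Set ℂ)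
    (hKD : KD ρ A B) : Measurable (ph A B) := by
  have hc := (hSB4 Γ ρ A B hKD).2.2.1
  have h1 : ContinuousOn (fun x => max 0 (1 - max 0 (sb A B x))) up :=
    continuousOn_const.sup (continuousOn_const.sub (continuousOn_const.sup hc))
  classical
  have h2 := h1.measurable_piecewise (g := fun _ => (0 : ℝ)) continuousOn_const up_meas
  have e : ph A B = up.piecewise (fun x => max 0 (1 - max 0 (sb A B x))) (fun _ => (0 : ℝ)) := by
    funext x
    by_cases hx : x ∈ up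
    · rw [ph_up A B x hx, piecewise_eq_of_mem _ _ _ hx]
    · rw [ph_not A B x hx, piecewise_eq_of_notMem _ _ _ hx]
  rw [e]
  exact h2

private theorem kk_nn (x y : Pt) : 0 ≤ kk x y := by
  unfold kk
  split_ifs <;> norm_num

private theorem kk_zero (x y : Pt) (h : ¬ ch x y ≤ 2) : kk x y = 0 := by
  unfold kk
  rw [if_neg h]

private theorem ph_lt (hSB4 : StSB4) {Γ : Type} [Group Γ] (ρ : Γ →* SL) (A B : Set ℂ)
    (hKD : KD ρ A B) (x y : Pt) (hx : x ∈ up) (hy : y ∈ up) (hc : ch y x ≤ 2)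
    (h : ph A B x < ph A B y) : x ∈ Sh A B 6 := by
  rw [ph_up A B x hx, ph_up A B y hy] at h
  have hy1 : sb A B y < 1 := by
    by_contra hcon
    have h1 : max 0 (1 - max 0 (sb A B y)) = 0 := by
      apply max_eq_left
      have := le_max_right 0 (sb A B y)
      linarith
    rw [h1] at h
    have := le_max_left 0 (1 - max 0 (sb A B x))
    linarith
  have hx0 : 0 < sb A B x := by
    by_contra hcon
    have h1 : max 0 (sb A B x) = 0 := max_eq_left (not_lt.mp hcon)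
    rw [h1] at h
    have h2 : max 0 (1 - max 0 (sb A B y)) ≤ 1 := by
      refine max_le zero_le_one ?_
      have := le_max_left 0 (sb A B y)
      linarith
    have h3 := le_max_right (0 : ℝ) (1 - 0)
    linarith
  have h6 := (hSB4 Γ ρ A B hKD).2.1 1 zero_le_one y hy x hx hc hy1.le
  exact ⟨hx, hx0, by linarith⟩

private theorem pointwise (hCHI : StCHI) (hSB4 : StSB4) {Γ : Type} [Group Γ] (ρ : Γ →* SL)
    (A B : Set ℂ) (hKD : KD ρ A B) (x y : Pt) (hx : x ∈ up) (hy : y ∈ up) :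
    ENNReal.ofReal (kk x y * (ph A B x - ph A B y) ^ 2) ≤
      (Sh A B 6).indicator (fun _ => (1 : ℝ≥0∞)) x * ENNReal.ofReal (kk x y) +
      ENNReal.ofReal (kk x y) * (Sh A B 6).indicator (fun _ => (1 : ℝ≥0∞)) y := by
  by_cases hc : ch x y ≤ 2
  swap
  · rw [kk_zero x y hc]
    simp
  have hc' : ch y x ≤ 2 := by
    rw [← (hCHI.1 x hx y hy).2.1]
    exact hc
  obtain ⟨a1, a2⟩ := ph_rng A B x
  obtain ⟨b1, b2⟩ := ph_rng A B y
  have hk := kk_nn x y
  have hle : ENNReal.ofReal (kk x y * (ph A B x - ph A B y) ^ 2) ≤ ENNReal.ofReal (kk x y) := by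
    apply ENNReal.ofReal_le_ofReal
    have : (ph A B x - ph A B y) ^ 2 ≤ 1 := by nlinarith
    exact mul_le_of_le_one_right hk this
  rcases lt_trichotomy (ph A B x) (ph A B y) with h | h | h
  · have hm := ph_lt hSB4 ρ A B hKD x y hx hy hc' h
    rw [indicator_of_mem hm, one_mul]
    exact hle.trans le_self_add
  · rw [h, sub_self]
    simp
  · have hm := ph_lt hSB4 ρ A B hKD y x hy hx hc h
    rw [indicator_of_mem hm, mul_one]
    exact hle.trans le_add_self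

private theorem rhs_bound (hCHI : StCHI) (hKRN : StKRN) (hSW0 : StSW0) (hACU : StACU)
    (hSB3 : StSB3) (hSB4 : StSB4) {Γ : Type} [Group Γ] (ρ : Γ →* SL) (A B : Set ℂ)
    (hKD : KD ρ A B) (D : Set Pt) (hD : FDOn (au ρ) up D) :
    ∫⁻ x in D, ∫⁻ y, ENNReal.ofReal (kk x y * (ph A B x - ph A B y) ^ 2) ∂vol ∂vol ≤
      2 * (ENNReal.ofReal VV * vol (D ∩ Sh A B 6)) := by
  obtain ⟨hcnt, hact, -⟩ := hACU Γ ρ A B hKD
  have : Countable Γ := hcnt
  have hShm := sh_meas hSB4 ρ A B hKD 6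
  have hkm2 : Measurable (fun p : Pt × Pt => kk p.1 p.2) := hCHI.2.2.2.2.2
  have hI : Measurable ((Sh A B 6).indicator (fun _ => (1 : ℝ≥0∞))) :=
    measurable_const.indicator hShm
  have hkx : ∀ x : Pt, Measurable (fun y : Pt => ENNReal.ofReal (kk x y)) := fun x =>
    (hkm2.comp (g := fun p : Pt × Pt => kk p.1 p.2) (f := fun y : Pt => (x, y))
      (measurable_const.prodMk measurable_id)).ennreal_ofReal
  have hky : ∀ y : Pt, Measurable (fun x : Pt => ENNReal.ofReal (kk x y)) := fun y =>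
    (hkm2.comp (g := fun p : Pt × Pt => kk p.1 p.2) (f := fun x : Pt => (x, y))
      (measurable_id.prodMk measurable_const)).ennreal_ofReal
  have hsym : ∀ x ∈ up, ∀ y ∈ up, kk x y = kk y x := by
    intro x hx y hy
    unfold kk
    rw [(hCHI.1 x hx y hy).2.1]
  -- first part
  have hDup : ∀ᵐ x ∂(vol.restrict D), x ∈ up :=
    (ae_restrict_mem hD.mD).mono fun x hx => hD.sub hx
  have hval : ∀ x ∈ up, ∫⁻ y, ENNReal.ofReal (kk x y) ∂vol = ENNReal.ofReal VV := hKRN.2.1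
  have hcount : ∫⁻ x in D, (Sh A B 6).indicator (fun _ => (1 : ℝ≥0∞)) x * ENNReal.ofReal VV ∂vol =
      ENNReal.ofReal VV * vol (D ∩ Sh A B 6) := by
    rw [lintegral_mul_const _ hI, lintegral_indicator hShm, Measure.restrict_restrict hShm]
    simp only [lintegral_const, one_mul, Measure.restrict_apply_univ]
    rw [mul_comm, inter_comm]
  have h1 : ∫⁻ x in D, ∫⁻ y, (Sh A B 6).indicator (fun _ => (1 : ℝ≥0∞)) x *
      ENNReal.ofReal (kk x y) ∂vol ∂vol = ENNReal.ofReal VV * vol (D ∩ Sh A B 6) := by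
    rw [← hcount]
    refine lintegral_congr_ae (hDup.mono fun x hx => ?_)
    simp only
    rw [lintegral_const_mul _ (hkx x), hval x hx]
  -- second part
  have hinv : ∀ (γ : Γ), ∀ x ∈ up, ∀ y ∈ up,
      ENNReal.ofReal (kk (au ρ γ x) (au ρ γ y)) *
        (Sh A B 6).indicator (fun _ => (1 : ℝ≥0∞)) (au ρ γ y) =
      ENNReal.ofReal (kk x y) * (Sh A B 6).indicator (fun _ => (1 : ℝ≥0∞)) y := by
    intro γ x hx y hy
    have e1 : kk (au ρ γ x) (au ρ γ y) = kk x y := (hCHI.2.1 (ρ γ) x hx y hy).2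
    have e2 : sb A B (au ρ γ y) = sb A B y := (hSB3 Γ ρ A B hKD).1 γ y hy
    have e3 : au ρ γ y ∈ up := hact.ms γ y hy
    rw [e1]
    congr 1
    by_cases hm : y ∈ Sh A B 6
    · have hm' : au ρ γ y ∈ Sh A B 6 := ⟨e3, by rw [e2]; exact hm.2.1, by rw [e2]; exact hm.2.2⟩
      rw [indicator_of_mem hm, indicator_of_mem hm']
    · have hm' : au ρ γ y ∉ Sh A B 6 := by
        intro h
        exact hm ⟨hy, by rw [← e2]; exact h.2.1, by rw [← e2]; exact h.2.2⟩
      rw [indicator_of_notMem hm, indicator_of_notMem hm']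
  have hmm : Measurable (fun p : Pt × Pt => ENNReal.ofReal (kk p.1 p.2) *
      (Sh A B 6).indicator (fun _ => (1 : ℝ≥0∞)) p.2) :=
    Measurable.mul hkm2.ennreal_ofReal (hI.comp measurable_snd)
  have h2 := hSW0 Γ Pt Pt (au ρ) (au ρ) up D up D vol vol
    (fun x y => ENNReal.ofReal (kk x y) * (Sh A B 6).indicator (fun _ => (1 : ℝ≥0∞)) y)
    hact hact hD hD hmm hinv
  have h3 : ∫⁻ x, ∫⁻ y in D, ENNReal.ofReal (kk x y) *
      (Sh A B 6).indicator (fun _ => (1 : ℝ≥0∞)) y ∂vol ∂vol =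
      ENNReal.ofReal VV * vol (D ∩ Sh A B 6) := by
    rw [lintegral_lintegral_swap hmm.aemeasurable, ← hcount]
    refine lintegral_congr_ae (hDup.mono fun y hy => ?_)
    simp only
    rw [lintegral_mul_const _ (hky y), mul_comm]
    congr 1
    rw [← hval y hy]
    refine lintegral_congr_ae (ae_up.mono fun x hx => ?_)
    simp only
    rw [hsym x hx y hy]
  calc ∫⁻ x in D, ∫⁻ y, ENNReal.ofReal (kk x y * (ph A B x - ph A B y) ^ 2) ∂vol ∂vol
      ≤ ∫⁻ x in D, ((∫⁻ y, (Sh A B 6).indicator (fun _ => (1 : ℝ≥0∞)) x *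
          ENNReal.ofReal (kk x y) ∂vol) + ∫⁻ y, ENNReal.ofReal (kk x y) *
            (Sh A B 6).indicator (fun _ => (1 : ℝ≥0∞)) y ∂vol) ∂vol := by
        refine lintegral_mono_ae (hDup.mono fun x hx => ?_)
        rw [← lintegral_add_left ((hkx x).const_mul _)]
        exact lintegral_mono_ae (ae_up.mono fun y hy => pointwise hCHI hSB4 ρ A B hKD x y hx hy)
    _ = (∫⁻ x in D, ∫⁻ y, (Sh A B 6).indicator (fun _ => (1 : ℝ≥0∞)) x *
          ENNReal.ofReal (kk x y) ∂vol ∂vol) + ∫⁻ x in D, ∫⁻ y, ENNReal.ofReal (kk x y) *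
            (Sh A B 6).indicator (fun _ => (1 : ℝ≥0∞)) y ∂vol ∂vol := by
        refine lintegral_add_right _ ?_
        exact Measurable.lintegral_prod_right' hmm
    _ = _ := by
        rw [h1, h2, h3, two_mul]

private theorem fin_vol (hVOL : StVOL) (hSW1 : StSW1) (hACU : StACU) (hSB6 : StSB6)
    {Γ : Type} [Group Γ] (ρ : Γ →* SL) (A B : Set ℂ) (hKD : KD ρ A B) (D : Set Pt)
    (hD : FDOn (au ρ) up D) (hm : MeasurableSet {x : Pt | x ∈ up ∧ sb A B x ≤ 1}) :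
    vol (D ∩ {x : Pt | x ∈ up ∧ sb A B x ≤ 1}) < ∞ := by
  obtain ⟨hcnt, hact, -⟩ := hACU Γ ρ A B hKD
  have : Countable Γ := hcnt
  obtain ⟨K, hK, hKup, hcov⟩ := hSB6 Γ ρ A B hKD 1 zero_le_one
  have hKm : MeasurableSet K := hK.measurableSet
  have h1 := (hSW1 Γ Pt (au ρ) up D vol (fun _ => (1 : ℝ≥0∞)) hact hD measurable_const
    (fun _ _ _ => rfl)).1 (K.indicator (fun _ => (1 : ℝ≥0∞))) (measurable_const.indicator hKm)
  simp only [one_mul] at h1
  have h2 : ∫⁻ x, K.indicator (fun _ => (1 : ℝ≥0∞)) x ∂vol = vol K := by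
    rw [lintegral_indicator hKm]
    simp
  have h3 : vol (D ∩ {x : Pt | x ∈ up ∧ sb A B x ≤ 1}) ≤
      ∫⁻ x in D, ∑' γ : Γ, K.indicator (fun _ => (1 : ℝ≥0∞)) (au ρ γ x) ∂vol := by
    calc vol (D ∩ {x : Pt | x ∈ up ∧ sb A B x ≤ 1})
        = ∫⁻ x in D, ({x : Pt | x ∈ up ∧ sb A B x ≤ 1}).indicator (fun _ => (1 : ℝ≥0∞)) x ∂vol := by
          rw [lintegral_indicator hm, Measure.restrict_restrict hm]
          simp only [lintegral_const, one_mul, Measure.restrict_apply_univ]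
          rw [inter_comm]
      _ ≤ _ := by
          refine lintegral_mono fun x => ?_
          by_cases hx : x ∈ {x : Pt | x ∈ up ∧ sb A B x ≤ 1}
          · rw [indicator_of_mem hx]
            obtain ⟨γ, hγ⟩ := hcov x hx.1 hx.2
            refine le_trans ?_ (ENNReal.le_tsum γ)
            rw [indicator_of_mem hγ]
          · rw [indicator_of_notMem hx]
            exact zero_le
  refine lt_of_le_of_lt h3 ?_
  rw [h1, h2]
  exact hVOL.2.2.2 K hK hKup

theorem hCAN (hCHI : StCHI) (hVOL : StVOL) (hKRN : StKRN) (hALP : StALP) (hSW0 : StSW0)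
    (hSW1 : StSW1) (hACU : StACU) (hSCH : StSCH) (_hSB1 : StSB1) (hSB3 : StSB3) (hSB4 : StSB4)
    (hSB6 : StSB6) (hSB7 : StSB7) (hSH6 : StSH6) : Pool.Agent.Helper85.QT.StCAN := by
  intro S a₀ hS ha
  have hVV : 0 < VV := hKRN.1
  have hgap : 0 < VV - al 1 := by
    have := hALP.2.2.2.2.1
    linarith
  have hVS := V1_nonneg S a₀ hS ha
  have hV6 := V1_nonneg 6 a₀ (by norm_num) ha
  refine ⟨2 * VV * V1 6 a₀ / (VV - al 1) + 2 * V1 S a₀ + 1, by positivity, ?_⟩
  intro Γ _ ρ σ τ A B F F' hKD hCF hCF' D DA DB hD hDA hDB h h' s hs hsum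
  obtain ⟨hcnt, hact, -⟩ := hACU Γ ρ A B hKD
  have hm0 := (hSB4 Γ ρ A B hKD).2.2.2 0
  have hm1 := (hSB4 Γ ρ A B hKD).2.2.2 1
  have hphm := ph_meas hSB4 ρ A B hKD
  have hsh6 := shell hACU hSB7 hSH6 ρ σ τ A B F F' hKD hCF hCF' D DA DB hD hDA hDB 6 a₀
    (by norm_num) ha h h'
  have hshS := shell hACU hSB7 hSH6 ρ σ τ A B F F' hKD hCF hCF' D DA DB hD hDA hDB S a₀
    hS ha h h'
  have hfin := fin_vol hVOL hSW1 hACU hSB6 ρ A B hKD D hD hm1
  -- integrability of the test function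
  have hint : ∫⁻ x in D, ENNReal.ofReal (ph A B x ^ 2) ∂vol ≠ ∞ := by
    refine ne_top_of_le_ne_top hfin.ne ?_
    calc ∫⁻ x in D, ENNReal.ofReal (ph A B x ^ 2) ∂vol
        ≤ ∫⁻ x in D, ({x : Pt | x ∈ up ∧ sb A B x ≤ 1}).indicator (fun _ => (1 : ℝ≥0∞)) x ∂vol := by
          refine lintegral_mono fun x => ?_
          simp only
          obtain ⟨r1, r2⟩ := ph_rng A B x
          by_cases hx : x ∈ {x : Pt | x ∈ up ∧ sb A B x ≤ 1}
          · rw [indicator_of_mem hx, ← ENNReal.ofReal_one]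
            exact ENNReal.ofReal_le_ofReal (by nlinarith)
          · have h0 : ph A B x = 0 := by
              by_cases hu : x ∈ up
              · rw [ph_up A B x hu]
                apply max_eq_left
                have h1 : 1 < sb A B x := by
                  by_contra hcon
                  exact hx ⟨hu, not_lt.mp hcon⟩
                have := le_max_right 0 (sb A B x)
                linarith
              · exact ph_not A B x hu
            rw [h0]
            simp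
      _ = vol (D ∩ {x : Pt | x ∈ up ∧ sb A B x ≤ 1}) := by
          rw [lintegral_indicator hm1, Measure.restrict_restrict hm1]
          simp only [lintegral_const, one_mul, Measure.restrict_apply_univ]
          rw [inter_comm]
  have hinv : ∀ γ : Γ, ∀ x ∈ up, ph A B (au ρ γ x) = ph A B x := by
    intro γ x hx
    have e3 : au ρ γ x ∈ up := hact.ms γ x hx
    have e2 : sb A B (au ρ γ x) = sb A B x := (hSB3 Γ ρ A B hKD).1 γ x hx
    rw [ph_up A B _ e3, ph_up A B x hx, e2]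
  have hsch := hSCH Γ ρ A B hKD D hD s (by linarith [hs.1]) hsum (ph A B) hphm hinv hint
  have hrhs := rhs_bound hCHI hKRN hSW0 hACU hSB3 hSB4 ρ A B hKD D hD
  -- lower bound of the left side
  have hlow : vol (D ∩ {x : Pt | x ∈ up ∧ sb A B x ≤ 0}) ≤
      ∫⁻ x in D, ENNReal.ofReal (ph A B x ^ 2) ∂vol := by
    calc vol (D ∩ {x : Pt | x ∈ up ∧ sb A B x ≤ 0})
        = ∫⁻ x in D, ({x : Pt | x ∈ up ∧ sb A B x ≤ 0}).indicator (fun _ => (1 : ℝ≥0∞)) x ∂vol := by
          rw [lintegral_indicator hm0, Measure.restrict_restrict hm0]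
          simp only [lintegral_const, one_mul, Measure.restrict_apply_univ]
          rw [inter_comm]
      _ ≤ _ := by
          refine lintegral_mono fun x => ?_
          simp only
          by_cases hx : x ∈ {x : Pt | x ∈ up ∧ sb A B x ≤ 0}
          · rw [indicator_of_mem hx, ph_up A B x hx.1, max_eq_left hx.2]
            norm_num
          · rw [indicator_of_notMem hx]
            exact zero_le
  have hal : (2 - s) * (VV - al 1) ≤ VV - al s := hALP.2.2.2.2.2 s hs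
  have h2s : 0 ≤ 2 - s := by linarith [hs.2]
  set v0 := vol (D ∩ {x : Pt | x ∈ up ∧ sb A B x ≤ 0}) with hv0
  have hmain : ENNReal.ofReal (2 * ((2 - s) * (VV - al 1))) * v0 ≤
      ENNReal.ofReal (4 * VV * V1 6 a₀) := by
    calc ENNReal.ofReal (2 * ((2 - s) * (VV - al 1))) * v0
        ≤ ENNReal.ofReal (2 * (VV - al s)) * ∫⁻ x in D, ENNReal.ofReal (ph A B x ^ 2) ∂vol := by
          gcongr
      _ ≤ 2 * (ENNReal.ofReal VV * vol (D ∩ Sh A B 6)) := hsch.trans hrhs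
      _ ≤ 2 * (ENNReal.ofReal VV * ENNReal.ofReal (2 * V1 6 a₀)) := by gcongr
      _ = ENNReal.ofReal (4 * VV * V1 6 a₀) := by
          rw [← ENNReal.ofReal_mul hVV.le]
          have : (2 : ℝ≥0∞) = ENNReal.ofReal 2 := by norm_num
          rw [this, ← ENNReal.ofReal_mul (by norm_num)]
          congr 1
          ring
  have hcore : ENNReal.ofReal (2 - s) * v0 ≤
      ENNReal.ofReal (2 * VV * V1 6 a₀ / (VV - al 1)) := by
    have hc : 0 < 2 * (VV - al 1) := by positivity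
    have e : ENNReal.ofReal (2 - s) * v0 = ENNReal.ofReal (1 / (2 * (VV - al 1))) *
        (ENNReal.ofReal (2 * ((2 - s) * (VV - al 1))) * v0) := by
      rw [← mul_assoc, ← ENNReal.ofReal_mul (by positivity)]
      congr 2
      field_simp
    rw [e]
    calc ENNReal.ofReal (1 / (2 * (VV - al 1))) *
        (ENNReal.ofReal (2 * ((2 - s) * (VV - al 1))) * v0)
        ≤ ENNReal.ofReal (1 / (2 * (VV - al 1))) * ENNReal.ofReal (4 * VV * V1 6 a₀) := by
          gcongr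
      _ = _ := by
          rw [← ENNReal.ofReal_mul (by positivity)]
          congr 1
          field_simp
          ring
  have hsplit : vol (D ∩ {x : Pt | x ∈ up ∧ sb A B x ≤ S}) ≤ v0 + vol (D ∩ Sh A B S) := by
    refine (measure_mono ?_).trans (measure_union_le _ _)
    rintro x ⟨hxD, hxu, hxS⟩
    rcases le_or_gt (sb A B x) 0 with h0 | h0
    · exact Or.inl ⟨hxD, hxu, h0⟩
    · exact Or.inr ⟨hxD, hxu, h0, hxS⟩
  have hle1 : ENNReal.ofReal (2 - s) ≤ 1 := by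
    rw [← ENNReal.ofReal_one]
    exact ENNReal.ofReal_le_ofReal (by linarith [hs.1])
  calc ENNReal.ofReal (2 - s) * vol (D ∩ {x : Pt | x ∈ up ∧ sb A B x ≤ S})
      ≤ ENNReal.ofReal (2 - s) * (v0 + vol (D ∩ Sh A B S)) := by gcongr
    _ = ENNReal.ofReal (2 - s) * v0 + ENNReal.ofReal (2 - s) * vol (D ∩ Sh A B S) := mul_add _ _ _
    _ ≤ ENNReal.ofReal (2 * VV * V1 6 a₀ / (VV - al 1)) + 1 * ENNReal.ofReal (2 * V1 S a₀) := by
        gcongr
    _ = ENNReal.ofReal (2 * VV * V1 6 a₀ / (VV - al 1) + 2 * V1 S a₀) := by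
        rw [one_mul, ← ENNReal.ofReal_add (by positivity) (by positivity)]
    _ ≤ _ := ENNReal.ofReal_le_ofReal (by linarith)

end Pool.Agent.Helper78.QT
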