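import Pool.Agent.Helper85.QT.St3

/-!
# Project QT (stage 2 of QD, MP_d112a4_gt), module GPM: Moebius transformations and geodesics
-/

set_option autoImplicit false

open MeasureTheory Matrix Set Topology
open scoped ENNReal ComplexConjugate

namespace Pool.Agent.Helper78.QT

open Pool.Agent.Helper85.QT Pool.Agent.Helper86.QA

/-- The rank one matrix of the point `a`. -/
def Wm (a : ℂ) : Mat := !![a * conj a, a; conj a, 1]

lemma Xm_inj {x y : Pt} (hx : x ∈ up) (hy : y ∈ up) (h : Xm x = Xm y) : x = y := by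
  have hx' : (0 : ℝ) < x.2 := hx
  have hy' : (0 : ℝ) < y.2 := hy
  have h1 := congrFun (congrFun h 1) 1
  have h2 := congrFun (congrFun h 0) 1
  simp only [Xm, Matrix.of_apply, Matrix.cons_val', Matrix.cons_val_zero, Matrix.cons_val_one,
    Matrix.cons_val_fin_one] at h1 h2
  have h3 : 1 / x.2 = 1 / y.2 := by exact_mod_cast h1
  have h4 : x.2 = y.2 := by
    rw [one_div, one_div] at h3
    exact inv_injective h3
  rw [h4] at h2
  have hyc : (y.2 : ℂ) ≠ 0 := by exact_mod_cast hy'.ne'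
  have h5 : x.1 = y.1 := by
    field_simp at h2
    exact h2
  exact Prod.ext h5 h4

lemma Xm_aux {a b : ℂ} {p q l : ℝ} (hp0 : 0 < p) (hq0 : 0 < q) (hpq : p * q = 1) (hl : 0 < l)
    (hn : (l : ℂ) ^ 2 = (a - b) * (conj a - conj b)) :
    Xm (((p : ℂ) * a + (q : ℂ) * b) / ((p + q : ℝ) : ℂ), l / (p + q)) =
      ((p / l : ℝ) : ℂ) • Wm a + ((q / l : ℝ) : ℂ) • Wm b := by
  have hlc : (l : ℂ) ≠ 0 := by exact_mod_cast hl.ne'
  have hs : (p : ℂ) + q ≠ 0 := by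
    have : (p + q : ℝ) ≠ 0 := by positivity
    exact_mod_cast this
  have hpqc : (p : ℂ) * q = 1 := by exact_mod_cast hpq
  ext i j
  fin_cases i <;> fin_cases j
  · simp only [Xm, Wm, Fin.zero_eta, Matrix.of_apply, Matrix.cons_val', Matrix.cons_val_zero,
      Matrix.cons_val_fin_one, Matrix.add_apply, Matrix.smul_apply, smul_eq_mul]
    have hz : ((‖((p : ℂ) * a + (q : ℂ) * b) / (((p + q : ℝ)) : ℂ)‖ ^ 2 : ℝ) : ℂ) =
        ((p : ℂ) * a + q * b) * ((p : ℂ) * conj a + q * conj b) / ((p : ℂ) + q) ^ 2 := by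
      rw [norm_div, div_pow]
      have e1 : (((‖(p : ℂ) * a + (q : ℂ) * b‖ ^ 2 : ℝ)) : ℂ) =
          ((p : ℂ) * a + q * b) * ((p : ℂ) * conj a + q * conj b) := by
        rw [← Complex.normSq_eq_norm_sq, ← Complex.mul_conj]
        simp only [map_add, map_mul, Complex.conj_ofReal]
      have e2 : ‖(((p + q : ℝ)) : ℂ)‖ = p + q := by
        rw [Complex.norm_real, Real.norm_eq_abs, abs_of_pos (by positivity)]
      rw [e2, Complex.ofReal_div, e1]
      push_cast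
      ring
    rw [Complex.ofReal_div, Complex.ofReal_add, hz]
    push_cast
    field_simp
    rw [hn]
    linear_combination (a * conj b + b * conj a - b * conj b - a * conj a) * hpqc
  · simp only [Xm, Wm, Fin.zero_eta, Fin.mk_one, Matrix.of_apply, Matrix.cons_val',
      Matrix.cons_val_zero, Matrix.cons_val_one,
      Matrix.cons_val_fin_one, Matrix.add_apply, Matrix.smul_apply, smul_eq_mul]
    push_cast
    field_simp
  · simp only [Xm, Wm, Fin.zero_eta, Fin.mk_one, Matrix.of_apply, Matrix.cons_val',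
      Matrix.cons_val_zero, Matrix.cons_val_one,
      Matrix.cons_val_fin_one, Matrix.add_apply, Matrix.smul_apply, smul_eq_mul]
    simp only [map_div₀, map_add, map_mul, Complex.conj_ofReal]
    push_cast
    field_simp
  · simp only [Xm, Wm, Fin.mk_one, Matrix.of_apply, Matrix.cons_val',
      Matrix.cons_val_one,
      Matrix.cons_val_fin_one, Matrix.add_apply, Matrix.smul_apply, smul_eq_mul, mul_one]
    push_cast
    field_simp

lemma Xm_gp {a b : ℂ} (hab : a ≠ b) (u : ℝ) : Xm (gp a b u) =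
    ((Real.exp u / ‖a - b‖ : ℝ) : ℂ) • Wm a + ((Real.exp (-u) / ‖a - b‖ : ℝ) : ℂ) • Wm b := by
  have hl : 0 < ‖a - b‖ := norm_pos_iff.mpr (sub_ne_zero.mpr hab)
  have hn : ((‖a - b‖ : ℝ) : ℂ) ^ 2 = (a - b) * (conj a - conj b) := by
    rw [← map_sub, Complex.mul_conj, Complex.normSq_eq_norm_sq]
    push_cast
    ring
  have hpq : Real.exp u * Real.exp (-u) = 1 := by rw [← Real.exp_add]; simp
  exact Xm_aux (Real.exp_pos _) (Real.exp_pos _) hpq hl hn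

lemma conj_Wm (g : SL) {a : ℂ} (ha : g 1 0 * a + g 1 1 ≠ 0) :
    (g : Mat) * Wm a * (g : Mat)ᴴ = ((‖g 1 0 * a + g 1 1‖ ^ 2 : ℝ) : ℂ) • Wm (mb g a) := by
  set q : ℂ := g 1 0 * a + g 1 1 with hq
  have hn : ((‖q‖ ^ 2 : ℝ) : ℂ) = q * conj q := by
    rw [Complex.mul_conj, Complex.normSq_eq_norm_sq]
  have hm : q * mb g a = g 0 0 * a + g 0 1 := by
    rw [mb, ← hq]
    field_simp
  have hm' : conj q * conj (mb g a) = conj (g 0 0) * conj a + conj (g 0 1) := by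
    rw [← map_mul, hm]
    simp
  have hq' : conj q = conj (g 1 0) * conj a + conj (g 1 1) := by
    rw [hq]; simp
  rw [hn]
  ext i j
  fin_cases i <;> fin_cases j
  · simp only [Wm, Fin.zero_eta, Matrix.mul_apply, Fin.sum_univ_two, Matrix.of_apply,
      Matrix.cons_val', Matrix.cons_val_zero, Matrix.cons_val_one, Matrix.cons_val_fin_one,
      Matrix.conjTranspose_apply, Matrix.smul_apply, smul_eq_mul, RCLike.star_def]
    linear_combination (-(conj q * conj (mb g a))) * hm - (g 0 0 * a + g 0 1) * hm'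
  · simp only [Wm, Fin.zero_eta, Fin.mk_one, Matrix.mul_apply, Fin.sum_univ_two, Matrix.of_apply,
      Matrix.cons_val', Matrix.cons_val_zero, Matrix.cons_val_one, Matrix.cons_val_fin_one,
      Matrix.conjTranspose_apply, Matrix.smul_apply, smul_eq_mul, RCLike.star_def]
    linear_combination (-(conj q)) * hm - (g 0 0 * a + g 0 1) * hq'
  · simp only [Wm, Fin.zero_eta, Fin.mk_one, Matrix.mul_apply, Fin.sum_univ_two, Matrix.of_apply,
      Matrix.cons_val', Matrix.cons_val_zero, Matrix.cons_val_one, Matrix.cons_val_fin_one,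
      Matrix.conjTranspose_apply, Matrix.smul_apply, smul_eq_mul, RCLike.star_def]
    linear_combination (-(conj q * conj (mb g a))) * hq - (g 1 0 * a + g 1 1) * hm'
  · simp only [Wm, Fin.mk_one, Matrix.mul_apply, Fin.sum_univ_two, Matrix.of_apply,
      Matrix.cons_val', Matrix.cons_val_zero, Matrix.cons_val_one, Matrix.cons_val_fin_one,
      Matrix.conjTranspose_apply, Matrix.smul_apply, smul_eq_mul, RCLike.star_def]
    linear_combination (-(conj q)) * hq - (g 1 0 * a + g 1 1) * hq'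

/-- A diagonal matrix with quotient `exp μ`. -/
def Dg (μ : ℂ) (A : SL) : Prop := A 0 1 = 0 ∧ A 1 0 = 0 ∧ A 0 0 = Complex.exp μ * A 1 1

lemma Dg_one : Dg 0 1 := by
  refine ⟨by simp, by simp, by simp⟩

lemma Dg_mul {μ ν : ℂ} {A B : SL} (hA : Dg μ A) (hB : Dg ν B) : Dg (μ + ν) (A * B) := by
  obtain ⟨a1, a2, a3⟩ := hA
  obtain ⟨b1, b2, b3⟩ := hB
  refine ⟨?_, ?_, ?_⟩
  · simp [Matrix.mul_apply, Fin.sum_univ_two, a1, b1]
  · simp [Matrix.mul_apply, Fin.sum_univ_two, a2, b2]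
  · simp only [Matrix.SpecialLinearGroup.coe_mul, Matrix.mul_apply, Fin.sum_univ_two, a1, a2, a3,
      b3, Complex.exp_add]
    ring

lemma Dg_inv {μ : ℂ} {A : SL} (hA : Dg μ A) : Dg (-μ) A⁻¹ := by
  obtain ⟨a1, a2, a3⟩ := hA
  have h : ((A⁻¹ : SL) : Mat) = !![A 1 1, -A 0 1; -A 1 0, A 0 0] := by
    rw [Matrix.SpecialLinearGroup.coe_inv, Matrix.adjugate_fin_two]
  refine ⟨?_, ?_, ?_⟩
  · rw [h]; simp [a1]
  · rw [h]; simp [a2]
  · rw [h]
    simp only [Matrix.of_apply, Matrix.cons_val', Matrix.cons_val_zero, Matrix.cons_val_one,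
      Matrix.cons_val_fin_one]
    rw [a3, ← mul_assoc, ← Complex.exp_add]
    simp

lemma Dg_zpow {μ : ℂ} {A : SL} (hA : Dg μ A) (n : ℤ) : Dg (n * μ) (A ^ n) := by
  induction n with
  | zero => simpa using Dg_one
  | succ n ih =>
    rw [_root_.zpow_add_one]
    have h := Dg_mul ih hA
    have e : ((n : ℤ) : ℂ) * μ + μ = (((n : ℤ) + 1 : ℤ) : ℂ) * μ := by push_cast; ring
    rw [e] at h
    exact h
  | pred n ih =>
    rw [_root_.zpow_sub_one]
    have h := Dg_mul ih (Dg_inv hA)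
    have e : ((-(n : ℤ) : ℤ) : ℂ) * μ + -μ = ((-(n : ℤ) - 1 : ℤ) : ℂ) * μ := by push_cast; ring
    rw [e] at h
    exact h

lemma alg1 {x y Q qa qb E : ℂ} (hx : x ≠ 0) (hy : y ≠ 0) (hQ : Q ≠ 0) (ha : qa ≠ 0) (hb : qb ≠ 0)
    (h : (x / (Q * qa)) / (y / (Q * qb)) = E * (x / y)) : qb = E * qa := by
  field_simp at h
  linear_combination h

lemma alg2 {e l A B : ℝ} (hl : l ≠ 0) (hA : A ≠ 0) (hB : B ≠ 0) :
    e / l * A ^ 2 = e * (A / B) / (l / (A * B)) := by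
  field_simp

/-- Multiplier and denominators. -/
lemma mlt_q (hCHV : Pool.Agent.Helper86.QA.StCHV) {g : SL} {a b l : ℂ} (h : Mlt g a b l) :
    g 1 0 * b + g 1 1 = Complex.exp l * (g 1 0 * a + g 1 1) := by
  obtain ⟨hab, ha, ha', hb, hb', hl⟩ := h
  obtain ⟨-, -, c3, -, -⟩ := hCHV
  obtain ⟨ξ, hξ⟩ := Infinite.exists_notMem_finset ({a, b, -(g 1 1) / g 1 0} : Finset ℂ)
  simp only [Finset.mem_insert, Finset.mem_singleton, not_or] at hξ
  obtain ⟨h1, h2, h3⟩ := hξ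
  have hq : g 1 0 * ξ + g 1 1 ≠ 0 := by
    intro h0
    by_cases hc : g 1 0 = 0
    · rw [hc] at h0 ha
      apply ha
      simpa using h0
    · apply h3
      field_simp
      linear_combination h0
  have e1 := c3 g ξ a hq ha
  have e2 := c3 g ξ b hq hb
  rw [ha'] at e1
  rw [hb'] at e2
  have e3 := hl ξ h2 hq
  rw [e1, e2] at e3
  exact alg1 (sub_ne_zero.mpr h1) (sub_ne_zero.mpr h2) hq ha hb e3

lemma mlt_log (hCHV : Pool.Agent.Helper86.QA.StCHV) {g : SL} {a b l : ℂ} (h : Mlt g a b l) :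
    Real.log (‖g 1 0 * a + g 1 1‖ / ‖g 1 0 * b + g 1 1‖) = -l.re := by
  have e := mlt_q hCHV h
  have ha : g 1 0 * a + g 1 1 ≠ 0 := h.2.1
  rw [e, norm_mul, Complex.norm_exp]
  have hn : ‖g 1 0 * a + g 1 1‖ ≠ 0 := norm_ne_zero_iff.mpr ha
  have : ‖g 1 0 * a + g 1 1‖ / (Real.exp l.re * ‖g 1 0 * a + g 1 1‖) = Real.exp (-l.re) := by
    rw [Real.exp_neg]
    field_simp
  rw [this, Real.log_exp]

theorem hGPM (hACT : Pool.Agent.Helper86.QA.StACT) (hCHV : Pool.Agent.Helper86.QA.StCHV)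
    (hSB5 : Pool.Agent.Helper85.QT.StSB5) (hTTX : Pool.Agent.Helper85.QT.StTTX) :
    Pool.Agent.Helper85.QT.StGPM := by
  have hup : ∀ (a b : ℂ) (u : ℝ), a ≠ b → gp a b u ∈ up := fun a b u h => (hSB5.1 a b u u h).1
  have c3 := hCHV.2.2.1
  have p1 : ∀ (g : SL) (a b : ℂ) (u : ℝ), a ≠ b → g 1 0 * a + g 1 1 ≠ 0 → g 1 0 * b + g 1 1 ≠ 0 →
      mb g a ≠ mb g b ∧
      ga g (gp a b u) =
        gp (mb g a) (mb g b) (u + Real.log (‖g 1 0 * a + g 1 1‖ / ‖g 1 0 * b + g 1 1‖)) := by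
    intro g a b u hab ha hb
    have hna : 0 < ‖g 1 0 * a + g 1 1‖ := norm_pos_iff.mpr ha
    have hnb : 0 < ‖g 1 0 * b + g 1 1‖ := norm_pos_iff.mpr hb
    have hl : 0 < ‖a - b‖ := norm_pos_iff.mpr (sub_ne_zero.mpr hab)
    have hd := c3 g a b ha hb
    have hne : mb g a ≠ mb g b := by
      intro h
      rw [h, sub_self] at hd
      have h2 : (a - b) / ((g 1 0 * a + g 1 1) * (g 1 0 * b + g 1 1)) ≠ 0 :=
        div_ne_zero (sub_ne_zero.mpr hab) (mul_ne_zero ha hb)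
      exact h2 hd.symm
    refine ⟨hne, ?_⟩
    have hl' : ‖mb g a - mb g b‖ = ‖a - b‖ / (‖g 1 0 * a + g 1 1‖ * ‖g 1 0 * b + g 1 1‖) := by
      rw [hd, norm_div, norm_mul]
    apply Xm_inj (hACT.1 g _ (hup a b u hab)).2.1 (hup _ _ _ hne)
    rw [(hACT.1 g _ (hup a b u hab)).2.2, Xm_gp hab, Xm_gp hne, hl']
    rw [Matrix.mul_add, Matrix.add_mul, Matrix.mul_smul, Matrix.smul_mul, Matrix.mul_smul,
      Matrix.smul_mul, conj_Wm g ha, conj_Wm g hb, smul_smul, smul_smul]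
    have e1 : Real.exp (u + Real.log (‖g 1 0 * a + g 1 1‖ / ‖g 1 0 * b + g 1 1‖)) =
        Real.exp u * (‖g 1 0 * a + g 1 1‖ / ‖g 1 0 * b + g 1 1‖) := by
      rw [Real.exp_add, Real.exp_log (by positivity)]
    have e2 : Real.exp (-(u + Real.log (‖g 1 0 * a + g 1 1‖ / ‖g 1 0 * b + g 1 1‖))) =
        Real.exp (-u) * (‖g 1 0 * b + g 1 1‖ / ‖g 1 0 * a + g 1 1‖) := by
      rw [neg_add, Real.exp_add, Real.exp_neg (Real.log _), Real.exp_log (by positivity), inv_div]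
    have e3 : Real.exp u / ‖a - b‖ * ‖g 1 0 * a + g 1 1‖ ^ 2 =
        Real.exp u * (‖g 1 0 * a + g 1 1‖ / ‖g 1 0 * b + g 1 1‖) /
          (‖a - b‖ / (‖g 1 0 * a + g 1 1‖ * ‖g 1 0 * b + g 1 1‖)) :=
      alg2 hl.ne' hna.ne' hnb.ne'
    have e4 : Real.exp (-u) / ‖a - b‖ * ‖g 1 0 * b + g 1 1‖ ^ 2 =
        Real.exp (-u) * (‖g 1 0 * b + g 1 1‖ / ‖g 1 0 * a + g 1 1‖) /
          (‖a - b‖ / (‖g 1 0 * a + g 1 1‖ * ‖g 1 0 * b + g 1 1‖)) := by
      rw [mul_comm ‖g 1 0 * a + g 1 1‖ ‖g 1 0 * b + g 1 1‖]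
      exact alg2 hl.ne' hnb.ne' hna.ne'
    rw [e1, e2, ← e3, ← e4]
    push_cast
    rfl
  have p2 : ∀ (g : SL) (a b l : ℂ) (u : ℝ), Mlt g a b l →
      ga g (gp a b u) = gp a b (u - l.re) := by
    intro g a b l u h
    have h1 := (p1 g a b u h.1 h.2.1 h.2.2.2.1).2
    rw [mlt_log hCHV h, h.2.2.1, h.2.2.2.2.1] at h1
    exact h1
  refine ⟨p1, p2, ?_, ?_⟩
  · intro Γ _ ρ γ a b l h g
    -- the matrices
    have hinv : ∀ c : ℂ, mb (ρ γ) c = c → (ρ γ) 1 0 * c + (ρ γ) 1 1 ≠ 0 →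
        ((ρ γ⁻¹) 0 0 * c + (ρ γ⁻¹) 0 1 = ((ρ γ) 1 0 * c + (ρ γ) 1 1)⁻¹ * c) ∧
        ((ρ γ⁻¹) 1 0 * c + (ρ γ⁻¹) 1 1 = ((ρ γ) 1 0 * c + (ρ γ) 1 1)⁻¹) := by
      intro c hc hq
      have hI : ((ρ γ⁻¹ : SL) : Mat) = !![(ρ γ) 1 1, -(ρ γ) 0 1; -(ρ γ) 1 0, (ρ γ) 0 0] := by
        rw [map_inv, Matrix.SpecialLinearGroup.coe_inv, Matrix.adjugate_fin_two]
      have hdet := (ρ γ).det_coe
      rw [Matrix.det_fin_two] at hdet
      have hm : (ρ γ) 0 0 * c + (ρ γ) 0 1 = c * ((ρ γ) 1 0 * c + (ρ γ) 1 1) := by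
        rw [mb] at hc
        rw [div_eq_iff hq] at hc
        exact hc
      rw [hI]
      simp only [Matrix.of_apply, Matrix.cons_val', Matrix.cons_val_zero, Matrix.cons_val_one,
        Matrix.cons_val_fin_one]
      constructor
      · rw [eq_comm, inv_mul_eq_iff_eq_mul₀ hq]
        linear_combination (-c) * hdet + ((ρ γ) 1 1) * hm
      · apply eq_inv_of_mul_eq_one_left
        linear_combination hdet + ((ρ γ) 1 0) * hm
    have hentry : ∀ c : ℂ, mb (ρ γ) c = c → (ρ γ) 1 0 * c + (ρ γ) 1 1 ≠ 0 →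
        ((ρ (γ * g)⁻¹) 0 0 * c + (ρ (γ * g)⁻¹) 0 1 =
          ((ρ γ) 1 0 * c + (ρ γ) 1 1)⁻¹ * ((ρ g⁻¹) 0 0 * c + (ρ g⁻¹) 0 1)) ∧
        ((ρ (γ * g)⁻¹) 1 0 * c + (ρ (γ * g)⁻¹) 1 1 =
          ((ρ γ) 1 0 * c + (ρ γ) 1 1)⁻¹ * ((ρ g⁻¹) 1 0 * c + (ρ g⁻¹) 1 1)) := by
      intro c hc hq
      obtain ⟨i1, i2⟩ := hinv c hc hq
      have hp : ((ρ (γ * g)⁻¹ : SL) : Mat) = (ρ g⁻¹ : Mat) * (ρ γ⁻¹ : Mat) := by
        rw [_root_.mul_inv_rev, map_mul, Matrix.SpecialLinearGroup.coe_mul]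
      rw [hp]
      simp only [Matrix.mul_apply, Fin.sum_univ_two]
      constructor
      · linear_combination ((ρ g⁻¹) 0 0) * i1 + ((ρ g⁻¹) 0 1) * i2
      · linear_combination ((ρ g⁻¹) 1 0) * i1 + ((ρ g⁻¹) 1 1) * i2
    obtain ⟨hab, ha, ha', hb, hb', hl⟩ := id h
    obtain ⟨ea1, ea2⟩ := hentry a ha' ha
    obtain ⟨eb1, eb2⟩ := hentry b hb' hb
    have pqa : pq ρ (γ * g) a = (((ρ γ) 1 0 * a + (ρ γ) 1 1)⁻¹) ^ 2 * pq ρ g a := by
      rw [pq, ea1, ea2, pq]; ring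
    have pqb : pq ρ (γ * g) b = (((ρ γ) 1 0 * b + (ρ γ) 1 1)⁻¹) ^ 2 * pq ρ g b := by
      rw [pq, eb1, eb2, pq]; ring
    refine ⟨?_, ⟨?_, ?_⟩, ?_⟩
    · intro hpa hpb
      refine ⟨?_, ?_, ?_⟩
      · rw [pqa]; exact mul_ne_zero (pow_ne_zero 2 (inv_ne_zero ha)) hpa
      · rw [pqb]; exact mul_ne_zero (pow_ne_zero 2 (inv_ne_zero hb)) hpb
      · have hna : 0 < ‖(ρ γ) 1 0 * a + (ρ γ) 1 1‖ := norm_pos_iff.mpr ha
        have hnb : 0 < ‖(ρ γ) 1 0 * b + (ρ γ) 1 1‖ := norm_pos_iff.mpr hb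
        have hma : 0 < ‖pq ρ g a‖ := norm_pos_iff.mpr hpa
        have hmb : 0 < ‖pq ρ g b‖ := norm_pos_iff.mpr hpb
        have e5 : ‖pq ρ (γ * g) b‖ / ‖pq ρ (γ * g) a‖ =
            (‖(ρ γ) 1 0 * a + (ρ γ) 1 1‖ / ‖(ρ γ) 1 0 * b + (ρ γ) 1 1‖) ^ 2 *
              (‖pq ρ g b‖ / ‖pq ρ g a‖) := by
          rw [pqa, pqb]
          simp only [norm_mul, norm_pow, norm_inv]
          field_simp
        rw [cen, cen, e5, Real.log_mul (by positivity) (by positivity), Real.log_pow,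
          mlt_log hCHV h]
        push_cast
        ring
    · rw [mb, mb, ea1, ea2, mul_div_mul_left _ _ (inv_ne_zero ha)]
    · rw [mb, mb, eb1, eb2, mul_div_mul_left _ _ (inv_ne_zero hb)]
    · intro lam u
      have e6 : ga (ρ γ⁻¹) (gp a b u) = gp a b (u + l.re) := by
        have e7 := p2 (ρ γ) a b l (u + l.re) h
        rw [add_sub_cancel_right] at e7
        rw [← e7, ← hACT.2.1 _ _ _ (hup a b _ hab), ← map_mul, inv_mul_cancel, map_one,
          hACT.2.2.1 _ (hup a b _ hab)]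
      rw [Tg, Tg, _root_.mul_inv_rev, map_mul, hACT.2.1 _ _ _ (hup a b u hab), e6]
  · intro Γ _ ρ α lam hlam hdg hmu g n
    have hD : Dg lam (ρ α) := ⟨hdg.1, hdg.2, hmu⟩
    have hDn : Dg (((-n : ℤ) : ℂ) * lam) (ρ (α ^ (-n))) := by
      rw [map_zpow]
      exact Dg_zpow hD (-n)
    obtain ⟨d1, d2, d3⟩ := hDn
    have hdet := (ρ (α ^ (-n))).det_coe
    rw [Matrix.det_fin_two, d1, zero_mul, sub_zero] at hdet
    set P : ℂ := (ρ (α ^ (-n))) 0 0 with hP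
    set R : ℂ := (ρ (α ^ (-n))) 1 1 with hR
    have hP0 : P ≠ 0 := left_ne_zero_of_mul_eq_one hdet
    have hR0 : R ≠ 0 := right_ne_zero_of_mul_eq_one hdet
    have hq : P / R = Complex.exp (-(n * lam)) := by
      rw [d3]
      push_cast
      rw [neg_mul]
      field_simp
    have hp : ((ρ (g * α ^ n)⁻¹ : SL) : Mat) = (ρ (α ^ (-n)) : Mat) * (ρ g⁻¹ : Mat) := by
      rw [_root_.mul_inv_rev, ← _root_.zpow_neg, map_mul, Matrix.SpecialLinearGroup.coe_mul]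
    constructor
    · intro a
      have e1 : (ρ (g * α ^ n)⁻¹) 0 0 * a + (ρ (g * α ^ n)⁻¹) 0 1 =
          P * ((ρ g⁻¹) 0 0 * a + (ρ g⁻¹) 0 1) := by
        rw [hp]
        simp only [Matrix.mul_apply, Fin.sum_univ_two, d1, ← hP]
        ring
      have e2 : (ρ (g * α ^ n)⁻¹) 1 0 * a + (ρ (g * α ^ n)⁻¹) 1 1 =
          R * ((ρ g⁻¹) 1 0 * a + (ρ g⁻¹) 1 1) := by
        rw [hp]
        simp only [Matrix.mul_apply, Fin.sum_univ_two, d2, ← hR]
        ring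
      constructor
      · rw [pq, e1, e2, pq]
        linear_combination (((ρ g⁻¹) 0 0 * a + (ρ g⁻¹) 0 1) *
          ((ρ g⁻¹) 1 0 * a + (ρ g⁻¹) 1 1)) * hdet
      · rw [mb, e1, e2, mb, ← hq, mul_div_mul_comm]
    · intro x hx
      have hlam0 : lam ≠ 0 := by
        rintro rfl
        simp at hlam
      have hy : ga (ρ g⁻¹) x ∈ up := (hACT.1 _ x hx).2.1
      have hc : P / R ≠ 0 := div_ne_zero hP0 hR0
      have e3 : ga (ρ (g * α ^ n)⁻¹) x = ga (ρ (α ^ (-n))) (ga (ρ g⁻¹) x) := by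
        rw [_root_.mul_inv_rev, ← _root_.zpow_neg, map_mul, hACT.2.1 _ _ _ hx]
      have hPR : ‖P‖ * ‖R‖ = 1 := by
        rw [← norm_mul, hdet, norm_one]
      have hRn : 0 < ‖R‖ := norm_pos_iff.mpr hR0
      have e4 : ∀ y : Pt, ga (ρ (α ^ (-n))) y = ((P / R) * y.1, ‖P / R‖ * y.2) := by
        intro y
        have hden : den (ρ (α ^ (-n))) y = ‖R‖ ^ 2 := by
          rw [den, d2, ← hR]
          simp
        have hRc : ((‖R‖ ^ 2 : ℝ) : ℂ) = R * conj R := by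
          rw [Complex.mul_conj, Complex.normSq_eq_norm_sq]
        have hRcc : conj R ≠ 0 := by simpa using hR0
        apply Prod.ext
        · change (((ρ (α ^ (-n))) 0 0 * y.1 + (ρ (α ^ (-n))) 0 1) *
            conj ((ρ (α ^ (-n))) 1 0 * y.1 + (ρ (α ^ (-n))) 1 1) +
            (ρ (α ^ (-n))) 0 0 * conj ((ρ (α ^ (-n))) 1 0) * (y.2 : ℂ) ^ 2) /
              ((den (ρ (α ^ (-n))) y : ℝ) : ℂ) = P / R * y.1
          rw [hden, hRc, d1, d2, ← hP, ← hR]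
          simp only [zero_mul, zero_add, add_zero, map_zero, mul_zero]
          field_simp
        · change y.2 / den (ρ (α ^ (-n))) y = ‖P / R‖ * y.2
          rw [hden, norm_div]
          field_simp
          linear_combination (-y.2) * hPR
      rw [Tg, Tg, e3, e4]
      exact ((hTTX lam hlam0).2.2.2.1 (P / R) hc _ hy).1

end Pool.Agent.Helper78.QT
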