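import Pool.Agent.Helper88.QT.St1
import Pool.Agent.Helper85.QT.St1

/-!
# Project QT (stage 2 of QD, MP_d112a4_gt), module ZS1: the tubes are disjoint (Zassenhaus)
-/

set_option autoImplicit false

open MeasureTheory Matrix Set Topology
open scoped ENNReal ComplexConjugate

namespace Pool.Agent.Helper78.QT

open Pool.Agent.Helper88.QT Pool.Agent.Helper85.QT Pool.Agent.Helper86.QA
open Pool.Agent.Helper35.PM (hs)

/-- The iterated commutators. -/
def zb {Γ : Type} [Group Γ] (α b0 : Γ) : ℕ → Γ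
  | 0 => b0
  | n + 1 => α * zb α b0 n * α⁻¹ * (zb α b0 n)⁻¹

theorem hZS1 (hACT : Pool.Agent.Helper86.QA.StACT) (hNNS : Pool.Agent.Helper88.QT.StNNS)
    (hZTB : Pool.Agent.Helper88.QT.StZTB) (hZS0 : Pool.Agent.Helper88.QT.StZS0) :
    Pool.Agent.Helper88.QT.StZS1 := by
  intro Γ _ ρ A B α lam M G m φ C3 hA x hx g h1 h2
  obtain ⟨z1, -, z3⟩ := hZS0 Γ ρ A B α lam M G m φ C3 hA
  obtain ⟨n1, n2, -, n4⟩ := hNNS
  set K : SL := gx x hx with hK
  obtain ⟨ε, hε, hε'⟩ := hZTB lam (ρ α) hA.re hA.dg.1 hA.dg.2 hA.mu x hx 1 (by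
    rw [inv_one, hACT.2.2.1 x hx]
    exact h1)
  obtain ⟨η, hη, hη'⟩ := hZTB lam (ρ α) hA.re hA.dg.1 hA.dg.2 hA.mu x hx (ρ g) (by
    have h3 : TT lam (ga (ρ g⁻¹) x) = TT lam (ga (ρ g)⁻¹ x) := by rw [map_inv]
    rw [← h3]
    exact h2)
  rw [← hK] at hε' hη'
  set X : Γ → SL := fun γ => K⁻¹ * ρ γ * K with hX
  have hXm : ∀ a b, X (a * b) = X a * X b := by
    intro a b
    simp only [hX, map_mul]
    group
  have hXi : ∀ a, X a⁻¹ = (X a)⁻¹ := by
    intro a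
    simp only [hX, map_inv]
    group
  have hXα : nn ((X α : Mat) - ε • (1 : Mat)) ≤ 1 / 10 := by
    have : X α = K⁻¹ * (1 * ρ α * 1⁻¹) * K := by
      simp only [hX, one_mul, inv_one, mul_one]
    rw [this]
    exact hε'
  have hX0 : nn ((X (g * α * g⁻¹) : Mat) - η • (1 : Mat)) ≤ 1 / 10 := by
    have : X (g * α * g⁻¹) = K⁻¹ * (ρ g * ρ α * (ρ g)⁻¹) * K := by
      simp only [hX, map_mul, map_inv]
    rw [this]
    exact hη'
  set β : ℕ → Γ := zb α (g * α * g⁻¹) with hβ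
  have hβ0 : β 0 = g * α * g⁻¹ := rfl
  have hβs : ∀ n, β (n + 1) = α * β n * α⁻¹ * (β n)⁻¹ := fun n => rfl
  have hXβ : ∀ n, X (β (n + 1)) = X α * X (β n) * (X α)⁻¹ * (X (β n))⁻¹ := by
    intro n
    rw [hβs, hXm, hXm, hXm, hXi, hXi]
  have hdec : ∀ n : ℕ, nn ((X (β (n + 1)) : Mat) - 1) ≤ 1 / 20 * (1 / 2) ^ n := by
    intro n
    induction n with
    | zero =>
      have h5 := n4 (X α) (X (β 0)) ε η hε hη hXα hX0
      rw [hXβ 0]
      have h6 : 0 ≤ nn ((X α : Mat) - ε • (1 : Mat)) := (n1 _ 0).2.2.2.2.1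
      have h7 : 0 ≤ nn ((X (β 0) : Mat) - η • (1 : Mat)) := (n1 _ 0).2.2.2.2.1
      have h8 : nn ((X (β 0) : Mat) - η • (1 : Mat)) ≤ 1 / 10 := hX0
      have h9 : 5 * nn ((X α : Mat) - ε • (1 : Mat)) * nn ((X (β 0) : Mat) - η • (1 : Mat)) ≤
          5 * (1 / 10) * (1 / 10) := by
        gcongr
      refine (h5.trans h9).trans ?_
      norm_num
    | succ n ih =>
      have hle : (1 / 20 : ℝ) * (1 / 2) ^ n ≤ 1 / 20 := by
        have : ((1 : ℝ) / 2) ^ n ≤ 1 := pow_le_one₀ (by norm_num) (by norm_num)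
        linarith
      have h4 : nn ((X (β (n + 1)) : Mat) - (1 : ℂ) • (1 : Mat)) ≤ 1 / 10 := by
        rw [one_smul]
        linarith
      have h5 := n4 (X α) (X (β (n + 1))) ε 1 hε (Or.inl rfl) hXα h4
      rw [one_smul] at h5
      rw [hXβ (n + 1)]
      have h6 : 0 ≤ nn ((X α : Mat) - ε • (1 : Mat)) := (n1 _ 0).2.2.2.2.1
      have h7 : 0 ≤ nn ((X (β (n + 1)) : Mat) - 1) := (n1 _ 0).2.2.2.2.1
      have h9 : 5 * nn ((X α : Mat) - ε • (1 : Mat)) * nn ((X (β (n + 1)) : Mat) - 1) ≤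
          5 * (1 / 10) * (1 / 20 * (1 / 2) ^ n) := by
        gcongr
      refine (h5.trans h9).trans (le_of_eq ?_)
      rw [pow_succ]
      ring
  -- the bound for the norm
  set C : ℝ := (nn (K : Mat) * ((nn (1 : Mat) + 1 / 20) * nn (K : Mat))) ^ 2 with hC
  have hbd : ∀ n, hs (ρ (β (n + 1))) ≤ C := by
    intro n
    have hle : (1 / 20 : ℝ) * (1 / 2) ^ n ≤ 1 / 20 := by
      have : ((1 : ℝ) / 2) ^ n ≤ 1 := pow_le_one₀ (by norm_num) (by norm_num)
      linarith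
    have h4 : nn (X (β (n + 1)) : Mat) ≤ nn (1 : Mat) + 1 / 20 := by
      have h5 := (n1 1 ((X (β (n + 1)) : Mat) - 1)).2.1
      have h6 : (1 : Mat) + ((X (β (n + 1)) : Mat) - 1) = (X (β (n + 1)) : Mat) := by
        abel
      rw [h6] at h5
      linarith [hdec n]
    have h5 : ρ (β (n + 1)) = K * (X (β (n + 1)) * K⁻¹) := by
      simp only [hX]
      group
    have h6 : nn (ρ (β (n + 1)) : Mat) ≤ nn (K : Mat) * ((nn (1 : Mat) + 1 / 20) * nn (K : Mat)) := by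
      rw [h5, Matrix.SpecialLinearGroup.coe_mul, Matrix.SpecialLinearGroup.coe_mul]
      have h7 := (n1 (K : Mat) ((X (β (n + 1)) : Mat) * ((K⁻¹ : SL) : Mat))).1
      have h8 := (n1 (X (β (n + 1)) : Mat) ((K⁻¹ : SL) : Mat)).1
      rw [n2 K] at h8
      have h9 : 0 ≤ nn (K : Mat) := (n1 (K : Mat) 0).2.2.2.2.1
      refine h7.trans (mul_le_mul_of_nonneg_left (h8.trans ?_) h9)
      exact mul_le_mul_of_nonneg_right h4 h9
    have h7 : hs (ρ (β (n + 1)) : Mat) = nn (ρ (β (n + 1)) : Mat) ^ 2 :=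
      ((n1 (ρ (β (n + 1)) : Mat) 0).2.2.2.2.2).symm
    have h8 : 0 ≤ nn (ρ (β (n + 1)) : Mat) := (n1 (ρ (β (n + 1)) : Mat) 0).2.2.2.2.1
    rw [h7, hC]
    exact pow_le_pow_left₀ h8 h6 2
  have hone : ∃ n, β (n + 1) = 1 := by
    by_contra hcon
    push Not at hcon
    have hne : ∀ n, (X (β (n + 1)) : Mat) ≠ 1 := by
      intro n h
      apply hcon n
      apply z1
      have h3 : X (β (n + 1)) = 1 := by
        apply Subtype.ext
        exact h
      have h4 : ρ (β (n + 1)) = K * (X (β (n + 1)) * K⁻¹) := by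
        simp only [hX]
        group
      rw [h4, h3, one_mul, mul_inv_cancel]
      rfl
    have hfin : {γ : Γ | hs (ρ γ) ≤ C ∧ (X γ : Mat) ≠ 1}.Finite :=
      (hA.kd.disc C).subset fun γ hγ => hγ.1
    obtain ⟨γ0, hγ0, hmin⟩ := Set.exists_min_image _ (fun γ => nn ((X γ : Mat) - 1)) hfin
      ⟨β 1, hbd 0, hne 0⟩
    have hpos : 0 < nn ((X γ0 : Mat) - 1) := by
      have h3 : 0 ≤ nn ((X γ0 : Mat) - 1) := (n1 _ 0).2.2.2.2.1
      rcases h3.lt_or_eq with h4 | h4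
      · exact h4
      · exfalso
        have h5 := ((n1 ((X γ0 : Mat) - 1) 0).2.2.2.1).mp h4.symm
        exact hγ0.2 (sub_eq_zero.mp h5)
    obtain ⟨n, hn⟩ := exists_pow_lt_of_lt_one hpos (by norm_num : (1 / 2 : ℝ) < 1)
    have h3 := hmin (β (n + 1)) ⟨hbd n, hne n⟩
    have h4 := hdec n
    have h5 : 0 ≤ ((1 : ℝ) / 2) ^ n := by positivity
    linarith
  obtain ⟨n, hn⟩ := hone
  have hdown : ∀ j : ℕ, (∃ k : ℤ, β j = α ^ k) → ∃ k : ℤ, β 0 = α ^ k := by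
    intro j
    induction j with
    | zero => exact fun h => h
    | succ j ih =>
      rintro ⟨k, hk⟩
      apply ih
      apply z3 (β j) (k - 1)
      right
      have h3 : β j * α⁻¹ * (β j)⁻¹ = α⁻¹ * β (j + 1) := by
        rw [hβs]
        group
      rw [h3, hk, sub_eq_add_neg, add_comm, _root_.zpow_add, _root_.zpow_neg_one]
  obtain ⟨k, hk⟩ := hdown (n + 1) ⟨0, by rw [hn, zpow_zero]⟩
  exact z3 g k (Or.inl (by rw [← hβ0, hk]))

end Pool.Agent.Helper78.QT
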